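import Pool.Agent.W58.GU.Stm

/-!
Project GU (MP_18b69d_an): sums of dependent sequences are small.
-/

namespace Pool.Agent.W17.GU
open Pool.Agent.W58.GU Finset

theorem idx_mono {P : Par} {idx : ℕ → ℕ} {f : ℕ → (ℕ →₀ ℚ)}
    (hidx : ∀ k, idx (k + 1) = P.σ ((List.range (k + 1)).map (fun l => (idx l, f l)))) :
    StrictMono idx := by
  refine strictMono_nat_of_lt_succ (fun k => ?_)
  rw [hidx k]
  refine P.hσlt _ (idx k, f k) ?_
  rw [List.mem_map]
  exact ⟨k, by simp, rfl⟩

theorem idx_mod {P : Par} {idx : ℕ → ℕ} {f : ℕ → (ℕ →₀ ℚ)}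
    (hidx : ∀ k, idx (k + 1) = P.σ ((List.range (k + 1)).map (fun l => (idx l, f l)))) (k : ℕ) :
    idx (k + 1) % 4 = 0 := by
  rw [hidx k]; exact P.hσ4 _

/-- if two indices of two dependent sequences are equal, the sequences agree before -/
theorem match_idx {P : Par} {idx idx' : ℕ → ℕ} {f g : ℕ → (ℕ →₀ ℚ)}
    (h4 : idx 0 % 4 = 2) (h4' : idx' 0 % 4 = 2)
    (hidx : ∀ k, idx (k + 1) = P.σ ((List.range (k + 1)).map (fun l => (idx l, f l))))
    (hidx' : ∀ k, idx' (k + 1) = P.σ ((List.range (k + 1)).map (fun l => (idx' l, g l))))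
    {l k : ℕ} (h : idx' l = idx k) : l = k ∧ ∀ i < l, (idx' i, g i) = (idx i, f i) := by
  rcases l with _ | l
  · rcases k with _ | k
    · exact ⟨rfl, fun i hi => absurd hi (Nat.not_lt_zero _)⟩
    · have := idx_mod hidx k
      omega
  · rcases k with _ | k
    · have := idx_mod hidx' l
      omega
    · rw [hidx, hidx'] at h
      have h2 := P.hσ h
      have hlen := congrArg List.length h2
      simp only [List.length_map, List.length_range] at hlen
      have hlk : l = k := by omega
      subst hlk
      refine ⟨rfl, fun i hi => ?_⟩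
      have h3 := List.map_inj_left.mp h2 i (List.mem_range.mpr hi)
      exact h3

theorem dep (h1 : S_HI) (h2 : S_BI) : S_DEP := by
  intro P C hC J hJ x f idx N hN hx h4 h0 hidx
  have hC0 : (0 : ℝ) ≤ C := by linarith
  have hmono := idx_mono hidx
  have hnJ : (0 : ℝ) < P.n J := by exact_mod_cast P.n_pos J
  have hmJ : (2 : ℝ) ≤ P.m J := by exact_mod_cast P.two_le J
  -- the weights are large
  have hbig : ∀ i, idx 0 ≤ i → C / P.m i ≤ C * (1 / (P.n J : ℝ) ^ 2) := by
    intro i hi
    have hm : ((P.n J : ℝ) ^ 2) ≤ P.m i := by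
      have : P.n J ^ 2 ≤ P.m i := le_trans h0 (P.m_mono.monotone hi)
      exact_mod_cast this
    rw [mul_one_div]
    exact div_le_div_of_nonneg_left hC0 (by positivity) hm
  have hlow : ∀ k, idx 0 ≤ idx k := fun k => hmono.monotone (Nat.zero_le k)
  have hFam : Fam P C (1 / (P.n J : ℝ) ^ 2) (range (P.n J)) x idx := by
    refine ⟨?_, fun k _ l _ hkl => hmono hkl, ?_, ?_, ?_⟩
    · intro k hk l hl hkl a ha b hb
      have ha' := ((hx k (mem_range.mp hk)).1 a ha).2
      have hb' := ((hx l (mem_range.mp hl)).1 b hb).1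
      have := hN (Nat.succ_le_of_lt hkl)
      simp only [Nat.succ_eq_add_one] at this
      omega
    · exact fun k hk => (hx k (mem_range.mp hk)).2.2.2.bd
    · exact fun k hk i hi g hg => (hx k (mem_range.mp hk)).2.2.2.lo i hi g hg
    · intro k hk l hl hkl i hi g hg
      have h5 : idx k < i := lt_of_lt_of_le (hmono hkl) hi
      exact le_trans ((hx k (mem_range.mp hk)).2.2.2.hi i h5 g hg) (hbig _ (hlow k))
  obtain ⟨nn, hnn1, hnn2, hnn3⟩ := P.hn J
  have hε : (0 : ℝ) ≤ 1 / (P.n J : ℝ) ^ 2 := by positivity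
  -- the claim on large weights
  have hclaim : ∀ i, J ≤ i → ∀ g, KW P (some i) g → ∀ E ⊆ range (P.n J),
      |pr g (∑ k ∈ E, x k : ℕ →₀ ℝ)| ≤
        C * (1 + 1 / (P.m J : ℝ) ^ 2 * E.card + 1 / (P.n J : ℝ) ^ 2 * E.card) := by
    intro i hi g hg E hE
    rcases Nat.lt_or_ge J i with hJi | hJi
    · refine le_trans (h1 P C _ _ x idx hC0 hε hFam i g hg E hE) ?_
      have hm : ((P.m J : ℝ) ^ 2) ≤ P.m i := by
        have : P.m J ^ 2 ≤ P.m i := le_trans (P.hm2 J) (P.m_mono.monotone hJi)
        exact_mod_cast this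
      have : (1 : ℝ) / P.m i ≤ 1 / (P.m J : ℝ) ^ 2 :=
        div_le_div_of_nonneg_left zero_le_one (by positivity) hm
      have hc : (0 : ℝ) ≤ E.card := by positivity
      refine mul_le_mul_of_nonneg_left ?_ hC0
      have := mul_le_mul_of_nonneg_right this hc
      linarith
    · have hiJ : i = J := le_antisymm hJi hi
      subst hiJ
      obtain ⟨d, u, idx', θ, hd, hsucc, hθ, -, h4', h0', hidx', hu, rfl⟩ := hg.inv_odd hJ
      have hmono' := idx_mono hidx'
      have hlow' : ∀ k, idx' 0 ≤ idx' k := fun k => hmono'.monotone (Nat.zero_le k)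
      have hbig' : ∀ i', idx' 0 ≤ i' → C / P.m i' ≤ C * (1 / (P.n i : ℝ) ^ 2) := by
        intro i' hi'
        have hm : ((P.n i : ℝ) ^ 2) ≤ P.m i' := by
          have : P.n i ^ 2 ≤ P.m i' := le_trans h0' (P.m_mono.monotone hi')
          exact_mod_cast this
        rw [mul_one_div]
        exact div_le_div_of_nonneg_left hC0 (by positivity) hm
      let A : ℕ → Prop := fun l =>
        (∀ i < l, (idx' i, u i) = (idx i, f i)) ∧ ¬ (idx' l, u l) = (idx l, f l)
      have hA : ∀ l l', A l → A l' → l = l' := by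
        intro l l' h h'
        by_contra hne
        rcases lt_or_gt_of_ne hne with hlt | hlt
        · exact h.2 (h'.1 l hlt)
        · exact h'.2 (h.1 l' hlt)
      classical
      have hpair : ∀ l < d, ∀ k ∈ E, |pr (th θ (u l)) (x k)| ≤
          C * (1 / (P.n i : ℝ) ^ 2) + (if l = k then (if A l then C else 0) else 0) := by
        intro l hl k hk
        have hk' := mem_range.mp (hE hk)
        have hnn : (0 : ℝ) ≤ (if l = k then (if A l then C else 0) else 0) := by
          split_ifs <;> linarith
        have hnn' : (0 : ℝ) ≤ C * (1 / (P.n i : ℝ) ^ 2) := by positivity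
        by_cases hag : (∀ i < l, (idx' i, u i) = (idx i, f i)) ∧ (idx' l, u l) = (idx l, f l)
        · have hul : u l = f l := (Prod.ext_iff.mp hag.2).2
          have hln : l < P.n i := lt_of_lt_of_le hl hd
          have hz : pr (th θ (u l)) (x k) = 0 := by
            refine pr_eq_zero (fun a ha => ?_)
            have ha' : a ∈ (f l).support := by
              rw [← hul]; exact th_support _ _ ha
            by_contra hne
            have hax : a ∈ (x k).support := Finsupp.mem_support_iff.mpr hne
            have hb1 := (hx l hln).2.1 a ha'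
            have hb2 := (hx k hk').1 a hax
            rcases lt_trichotomy l k with hlk | hlk | hlk
            · have := hN (Nat.succ_le_of_lt hlk)
              simp only [Nat.succ_eq_add_one] at this
              omega
            · subst hlk
              exact (Finset.disjoint_left.mp (hx l hln).2.2.1 ha') hax
            · have := hN (Nat.succ_le_of_lt hlk)
              simp only [Nat.succ_eq_add_one] at this
              omega
          rw [hz, abs_zero]
          linarith
        · rcases lt_trichotomy (idx' l) (idx k) with hlt | heq | hlt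
          · have := (hx k hk').2.2.2.lo (idx' l) hlt _ ((hu l hl).th hθ)
            have h6 := hbig' _ (hlow' l)
            linarith
          · obtain ⟨hlk, hag2⟩ := match_idx h4 h4' hidx hidx' heq
            have hAl : A l := ⟨hag2, fun h => hag ⟨hag2, h⟩⟩
            rw [if_pos hlk, if_pos hAl]
            have := (hx k hk').2.2.2.bd _ ⟨_, (hu l hl).th hθ⟩
            linarith
          · have := (hx k hk').2.2.2.hi (idx' l) hlt _ ((hu l hl).th hθ)
            have h6 := hbig _ (hlow k)
            linarith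
      have hsum : |∑ l ∈ range d, ∑ k ∈ E, pr (th θ (u l)) (x k)| ≤ 2 * C := by
        calc |∑ l ∈ range d, ∑ k ∈ E, pr (th θ (u l)) (x k)|
            ≤ ∑ l ∈ range d, ∑ k ∈ E, |pr (th θ (u l)) (x k)| := by
              refine le_trans (Finset.abs_sum_le_sum_abs _ _) (Finset.sum_le_sum (fun l _ => ?_))
              exact Finset.abs_sum_le_sum_abs _ _
          _ ≤ ∑ l ∈ range d, ∑ k ∈ E, (C * (1 / (P.n i : ℝ) ^ 2) +
                (if l = k then (if A l then C else 0) else 0)) :=
              Finset.sum_le_sum (fun l hl => Finset.sum_le_sum (fun k hk =>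
                hpair l (mem_range.mp hl) k hk))
          _ = (d : ℝ) * (E.card * (C * (1 / (P.n i : ℝ) ^ 2))) +
                ∑ l ∈ range d, ∑ k ∈ E, (if l = k then (if A l then C else 0) else 0) := by
              simp only [Finset.sum_add_distrib, Finset.sum_const, nsmul_eq_mul, card_range]
          _ ≤ C + C := by
              refine add_le_add ?_ ?_
              · have hd' : (d : ℝ) ≤ P.n i := by exact_mod_cast hd
                have hE' : (E.card : ℝ) ≤ P.n i := by
                  have := Finset.card_le_card hE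
                  rw [card_range] at this
                  exact_mod_cast this
                calc (d : ℝ) * (E.card * (C * (1 / (P.n i : ℝ) ^ 2)))
                    ≤ (P.n i : ℝ) * (P.n i * (C * (1 / (P.n i : ℝ) ^ 2))) := by
                      gcongr
                  _ = C := by field_simp
              · calc ∑ l ∈ range d, ∑ k ∈ E, (if l = k then (if A l then C else 0) else 0)
                    ≤ ∑ l ∈ range d, (if A l then C else 0) := by
                      refine Finset.sum_le_sum (fun l _ => ?_)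
                      rw [Finset.sum_ite_eq]
                      split_ifs <;> first | exact le_refl _ | exact hC0
                  _ ≤ C := by
                      by_cases hex : ∃ l0 ∈ range d, A l0
                      · obtain ⟨l0, hl0, hAl0⟩ := hex
                        rw [Finset.sum_eq_single l0]
                        · rw [if_pos hAl0]
                        · intro l _ hne
                          rw [if_neg (fun h => hne (hA _ _ h hAl0))]
                        · intro h; exact absurd hl0 h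
                      · push Not at hex
                        rw [Finset.sum_eq_zero (fun l hl => if_neg (hex l hl))]
                        exact hC0
          _ = 2 * C := by ring
      rw [pr_smul_left, pr_sum_left]
      have hre : ∑ l ∈ range d, pr (th θ (u l)) (∑ k ∈ E, x k : ℕ →₀ ℝ) =
          ∑ l ∈ range d, ∑ k ∈ E, pr (th θ (u l)) (x k) :=
        Finset.sum_congr rfl (fun l _ => pr_fsum _ _ _)
      have hcast : ((1 / (P.m i : ℚ) : ℚ) : ℝ) = 1 / (P.m i : ℝ) := by push_cast; rfl
      have hmpos : (0 : ℝ) < 1 / (P.m i : ℝ) := by positivity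
      rw [hre, abs_mul, hcast, abs_of_pos hmpos]
      have hc : (0 : ℝ) ≤ E.card := by positivity
      calc 1 / (P.m i : ℝ) * |∑ l ∈ range d, ∑ k ∈ E, pr (th θ (u l)) (x k)|
          ≤ 1 / (P.m i : ℝ) * (2 * C) := by
            refine mul_le_mul_of_nonneg_left hsum (by positivity)
        _ ≤ C := by
            rw [one_div, inv_mul_le_iff₀ (by linarith)]
            nlinarith
        _ ≤ C * (1 + 1 / (P.m i : ℝ) ^ 2 * E.card + 1 / (P.n i : ℝ) ^ 2 * E.card) := by
            have h7 : (0 : ℝ) ≤ 1 / (P.m i : ℝ) ^ 2 * E.card := by positivity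
            have h8 : (0 : ℝ) ≤ 1 / (P.n i : ℝ) ^ 2 * E.card := by positivity
            nlinarith
  intro g hg
  refine le_trans (h2 P C _ _ x idx hC0 hε hFam J nn (1 / (P.m J : ℝ) ^ 2) hnn1
    (fun i hi => hnn2 i hi) (by positivity) hclaim (2 * P.m J) g hg (range (P.n J))
    (Finset.Subset.refl _)) ?_
  rw [card_range]
  have hpow : ((1 / 2 : ℝ)) ^ (2 * P.m J) ≤ 1 / (P.m J : ℝ) ^ 2 := by
    rw [one_div_pow]
    refine div_le_div_of_nonneg_left zero_le_one (by positivity) ?_
    have h9 : (P.m J) ^ 2 ≤ (2 : ℕ) ^ (2 * P.m J) := by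
      rw [mul_comm, pow_mul]
      exact Nat.pow_le_pow_left (Nat.le_of_lt (Nat.lt_two_pow_self)) 2
    exact_mod_cast h9
  rw [max_eq_right hpow]
  have hnn1' : (1 : ℝ) ≤ nn := by exact_mod_cast hnn1
  have hA1 : (3 * nn : ℝ) ^ (2 * P.m J) ≤ P.n J / (P.m J : ℝ) ^ 2 := by
    rw [le_div_iff₀ (by positivity)]
    have h10 : (P.m J : ℝ) ^ 2 * (3 * nn) ^ (2 * P.m J + 1) ≤ P.n J := by exact_mod_cast hnn3
    have h11 : (3 * nn : ℝ) ^ (2 * P.m J) ≤ (3 * nn : ℝ) ^ (2 * P.m J + 1) :=
      pow_le_pow_right₀ (by linarith) (Nat.le_succ _)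
    calc (3 * nn : ℝ) ^ (2 * P.m J) * (P.m J : ℝ) ^ 2
        ≤ (3 * nn : ℝ) ^ (2 * P.m J + 1) * (P.m J : ℝ) ^ 2 :=
          mul_le_mul_of_nonneg_right h11 (by positivity)
      _ = (P.m J : ℝ) ^ 2 * (3 * nn) ^ (2 * P.m J + 1) := by ring
      _ ≤ P.n J := h10
  have hmn : (P.m J : ℝ) ^ 2 ≤ P.n J := by
    have h12 : (1 : ℝ) ≤ (3 * nn : ℝ) ^ (2 * P.m J) := one_le_pow₀ (by linarith)
    have h13 := le_trans h12 hA1
    rwa [le_div_iff₀ (by positivity), one_mul] at h13
  have hn1 : (1 : ℝ) ≤ P.n J := by exact_mod_cast P.n_pos J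
  have hA2 : 1 / (P.n J : ℝ) ^ 2 * P.n J ≤ P.n J / (P.m J : ℝ) ^ 2 := by
    have e1 : 1 / (P.n J : ℝ) ^ 2 * P.n J = 1 / P.n J := by field_simp
    rw [e1, div_le_div_iff₀ hnJ (by positivity)]
    nlinarith
  have e2 : 1 / (P.m J : ℝ) ^ 2 * P.n J = P.n J / (P.m J : ℝ) ^ 2 := by ring
  rw [e2]
  calc C * ((3 * nn : ℝ) ^ (2 * P.m J) + P.n J / (P.m J : ℝ) ^ 2 + 1 / (P.n J : ℝ) ^ 2 * P.n J)
      ≤ C * (P.n J / (P.m J : ℝ) ^ 2 + P.n J / (P.m J : ℝ) ^ 2 + P.n J / (P.m J : ℝ) ^ 2) := by
        refine mul_le_mul_of_nonneg_left ?_ hC0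
        linarith
    _ = 3 * C * P.n J / (P.m J : ℝ) ^ 2 := by ring

end Pool.Agent.W17.GU
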